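import Pool.Agent.MP_bd94e8_al.H83A.Cor

/-!
Connections over a bigger Hahn ring.
-/

set_option autoImplicit false

namespace Pool.Agent.MP_bd94e8_al.H83A

open Module H83 H89

namespace ExtA

variable (C0 C : Type) [CommRing C0] [CommRing C] [Algebra C0 C]

/-- The coefficientwise map of Hahn rings. -/
noncomputable def ph : K C0 →+* K C where
  toFun x := x.map (algebraMap C0 C)
  map_zero' := HahnSeries.map_zero (algebraMap C0 C).toZeroHom
  map_one' := HahnSeries.map_one (algebraMap C0 C).toMonoidWithZeroHom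
  map_add' _ _ := HahnSeries.map_add (algebraMap C0 C).toAddMonoidHom
  map_mul' _ _ := HahnSeries.map_mul (algebraMap C0 C).toNonUnitalRingHom

variable {C0 C}

theorem ph_coeff (x : K C0) (g : Gam) : (ph C0 C x).coeff g = algebraMap C0 C (x.coeff g) := rfl

theorem ph_smul (c : C0) (x : K C0) : ph C0 C (c • x) = algebraMap C0 C c • ph C0 C x := by
  ext g
  exact map_mul (algebraMap C0 C) c (x.coeff g)

theorem thK_coeff (i : ℕ) (x : K C) (g : Gam) : (H.thK i x).coeff g = ofLex g i • x.coeff g := rfl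

theorem dec {n : ℕ} (a : Fin n → C) (ha : Submodule.span C0 (Set.range a) = ⊤) (y : K C) :
    ∃ c : Fin n → K C0, y = ∑ j, a j • ph C0 C (c j) ∧
      ∀ i, H.thK i y = ∑ j, a j • ph C0 C (H.thK i (c j)) := by
  obtain ⟨c, hc⟩ := H.exists_sum (C := C0) (A := C) a y fun _ => ha ▸ trivial
  have h : ∀ g, y.coeff g = ∑ j, a j * algebraMap C0 C ((c j).coeff g) := fun g => by
    have h1 := congrArg (fun z => H.cf z g) hc
    simp only [H.cf_sum, H.cf_smul_sgl] at h1
    exact h1.trans (Finset.sum_congr rfl fun j _ => by rw [Algebra.smul_def, mul_comm])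
  refine ⟨c, HahnSeries.ext (funext fun g => ?_), fun i => HahnSeries.ext (funext fun g => ?_)⟩
  · simp [HahnSeries.coeff_sum, ph_coeff, h]
  · simp only [HahnSeries.coeff_sum, HahnSeries.coeff_smul, ph_coeff, thK_coeff, h, map_zsmul,
      Finset.smul_sum, smul_eq_mul, mul_smul_comm]

end ExtA

open ExtA

theorem sext : SExt := by
  classical
  intro C0 C A _ _ _ _ _ _ _ _ _ h N _ _ _ _ _ _ _ hN i
  obtain ⟨n, a, ha⟩ := Module.Finite.exists_fin (R := C0) (M := C)
  let _ : Algebra (K C0) (K C) := (ph C0 C).toAlgebra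
  let _ : Module (K C0) N := Module.compHom N (ph C0 C)
  let _ : Module C0 N := Module.compHom N (algebraMap C0 C)
  have e0 : ∀ (c : K C0) (x : N), c • x = ph C0 C c • x := fun _ _ => rfl
  have e1 : ∀ (c : C0) (x : N), c • x = algebraMap C0 C c • x := fun _ _ => rfl
  have : SMulCommClass A (K C0) N := ⟨fun b c x => smul_comm b (ph C0 C c) x⟩
  have : IsScalarTower C0 (K C0) N := ⟨fun b c x => by rw [e0, e1, e0, ph_smul, smul_assoc]⟩
  have : IsScalarTower C0 A N := ⟨fun b c x => by
    rw [e1, ← algebraMap_smul C b c, smul_assoc]⟩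
  have : IsScalarTower (K C0) (K C) N := ⟨fun b c x => mul_smul (ph C0 C b) c x⟩
  have : Module.Finite (K C0) (K C) := by
    refine ⟨⟨Finset.univ.image fun j => a j • (1 : K C), eq_top_iff.2 fun y _ => ?_⟩⟩
    obtain ⟨c, rfl, -⟩ := dec a ha y
    refine Submodule.sum_mem _ fun j _ => ?_
    have e : a j • ph C0 C (c j) = c j • a j • (1 : K C) := by
      change _ = ph C0 C (c j) * _
      rw [mul_smul_comm, mul_one]
    rw [e]
    exact Submodule.smul_mem _ _ (Submodule.subset_span (by simp))
  have := (fin_len hN).1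
  have : Module.Finite (K C0) N := Module.Finite.trans (K C) N
  have : IsArtinianRing (K C0) := inferInstanceAs (IsArtinian (K C0) (H C0 C0))
  obtain ⟨D, hD⟩ := h N length_ne_top i
  refine ⟨D, fun y x => ?_⟩
  obtain ⟨c, h1, h2⟩ := dec a ha y
  have hC : ∀ (b : C) (z : N), D (b • z) = b • D z := fun b z => by
    rw [← algebraMap_smul A b z, map_smul, algebraMap_smul]
  rw [h2, h1]
  simp only [Finset.sum_smul, map_sum, smul_assoc, hC, ← e0, hD, smul_add, Finset.sum_add_distrib]

end Pool.Agent.MP_bd94e8_al.H83A
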